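import Pool.Graph.R_pool_sql_team_seeded_ab47071d.TH90.Kim.Light

/-!
# Concatenation of tensor powers, and absorption of (anti)symmetrisers of blocks
-/

open CategoryTheory MonoidalCategory Limits BraidedCategory

universe u v w

namespace Pool.Agent.Helper91.SP

open Pool.Agent.TH90.AB Pool.Agent.TH90.Kim

set_option linter.unusedSectionVars false

noncomputable section

variable {𝒜 : Type u} [Category.{v} 𝒜] [MonoidalCategory 𝒜] [SymmetricCategory 𝒜]

/-- `T P a ⊗ T P b ≅ T P (a + b)`. -/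
def cat (P : 𝒜) (a : ℕ) : ∀ b, T P a ⊗ T P b ≅ T P (a + b)
  | 0 => ρ_ _
  | b + 1 => (α_ (T P a) (T P b) P).symm ≪≫ whiskerRightIso (cat P a b) P

lemma cat_hom_succ (P : 𝒜) (a b : ℕ) : (cat P a (b + 1)).hom =
    (α_ (T P a) (T P b) P).inv ≫ (cat P a b).hom ▷ P := rfl

lemma cat_inv_succ (P : 𝒜) (a b : ℕ) : (cat P a (b + 1)).inv =
    (cat P a b).inv ▷ P ≫ (α_ (T P a) (T P b) P).hom := rfl

/-- `f` on the last `b` factors. -/
def emb {P : 𝒜} (a : ℕ) {b : ℕ} (f : T P b ⟶ T P b) : T P (a + b) ⟶ T P (a + b) :=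
  (cat P a b).inv ≫ T P a ◁ f ≫ (cat P a b).hom

/-- `f` on the first `a` factors. -/
def embL {P : 𝒜} {a : ℕ} (b : ℕ) (f : T P a ⟶ T P a) : T P (a + b) ⟶ T P (a + b) :=
  (cat P a b).inv ≫ f ▷ T P b ≫ (cat P a b).hom

lemma emb_id (P : 𝒜) (a b : ℕ) : emb a (𝟙 (T P b)) = 𝟙 _ := by
  simp [emb]

lemma emb_comp {P : 𝒜} (a : ℕ) {b : ℕ} (f g : T P b ⟶ T P b) :
    emb a (f ≫ g) = emb a f ≫ emb a g := by
  simp [emb]

lemma emb_whisker {P : 𝒜} (a : ℕ) {b : ℕ} (f : T P b ⟶ T P b) :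
    emb a (b := b + 1) (f ▷ P) = (emb a f) ▷ P := by
  simp only [emb, cat_hom_succ, cat_inv_succ, comp_whiskerRight, Category.assoc]
  congr 1
  simp

lemma embL_succ {P : 𝒜} {a : ℕ} (b : ℕ) (f : T P a ⟶ T P a) :
    embL (b + 1) f = (embL b f) ▷ P := by
  simp only [embL, cat_hom_succ, cat_inv_succ, comp_whiskerRight, Category.assoc]
  congr 1
  simp

lemma embL_zero {P : 𝒜} {a : ℕ} (f : T P a ⟶ T P a) : embL 0 f = f := by
  simp [embL, cat]

lemma emb_sw (P : 𝒜) (a b : ℕ) : emb a (b := b + 2) (sw (T P b) P) = sw (T P (a + b)) P := by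
  have h1 : (cat P a (b + 2)).hom = (α_ (T P a) (T P b ⊗ P) P).inv ≫
      (α_ (T P a) (T P b) P).inv ▷ P ≫ ((cat P a b).hom ▷ P) ▷ P := by
    rw [cat_hom_succ, cat_hom_succ, comp_whiskerRight]
  have h2 : (cat P a (b + 2)).inv = ((cat P a b).inv ▷ P) ▷ P ≫
      (α_ (T P a) (T P b) P).hom ▷ P ≫ (α_ (T P a) (T P b ⊗ P) P).hom := by
    rw [cat_inv_succ, cat_inv_succ, comp_whiskerRight, Category.assoc]
  have h3 : (α_ (T P a) (T P b) P).hom ▷ P ≫ (α_ (T P a) (T P b ⊗ P) P).hom ≫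
      T P a ◁ sw (T P b) P ≫ (α_ (T P a) (T P b ⊗ P) P).inv ≫
        (α_ (T P a) (T P b) P).inv ▷ P = sw (T P a ⊗ T P b) P := by
    simp only [sw]
    monoidal
  rw [emb, h1, h2]
  simp only [Category.assoc]
  rw [reassoc_of% h3, ← sw_natural, ← comp_whiskerRight_assoc, ← comp_whiskerRight,
    Iso.inv_hom_id]
  simp

section linear

variable [Preadditive 𝒜] [MonoidalPreadditive 𝒜] [Linear ℚ 𝒜] [MonoidalLinear ℚ 𝒜]

lemma emb_add {P : 𝒜} (a : ℕ) {b : ℕ} (f g : T P b ⟶ T P b) :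
    emb a (f + g) = emb a f + emb a g := by
  simp only [emb, MonoidalPreadditive.whiskerLeft_add, Preadditive.add_comp,
    Preadditive.comp_add]

lemma emb_smul {P : 𝒜} (a : ℕ) {b : ℕ} (c : ℚ) (f : T P b ⟶ T P b) :
    emb a (c • f) = c • emb a f := by
  simp only [emb, MonoidalLinear.whiskerLeft_smul, Linear.smul_comp, Linear.comp_smul]

lemma emb_sy_succ (ε : ℚ) (P : 𝒜) (a n : ℕ) : emb a (sy ε P (n + 2)) = ((n : ℚ) + 2)⁻¹ •
    ((emb a (sy ε P (n + 1))) ▷ P + (ε * (n + 1)) •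
      ((emb a (sy ε P (n + 1))) ▷ P ≫ sw (T P (a + n)) P ≫ (emb a (sy ε P (n + 1))) ▷ P)) := by
  rw [sy_succ, emb_smul, emb_add, emb_smul, emb_comp, emb_comp, emb_whisker, emb_sw]

/-- The (anti)symmetriser absorbs the (anti)symmetriser of the last factors. -/
lemma sy_emb {ε : ℚ} (hε : ε * ε = 1) (P : 𝒜) (a b : ℕ) :
    sy ε P (a + b) ≫ emb a (sy ε P b) = sy ε P (a + b) := by
  induction b with
  | zero =>
    have : sy ε P 0 = 𝟙 (T P 0) := rfl
    rw [this, emb_id, Category.comp_id]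
  | succ b ih =>
    match b with
    | 0 =>
      have : sy ε P (0 + 1) = 𝟙 (T P (0 + 1)) := rfl
      rw [this, emb_id, Category.comp_id]
    | n + 1 =>
      have e1 : sy ε P (a + (n + 1 + 1)) ≫ (emb a (sy ε P (n + 1))) ▷ P =
          sy ε P (a + (n + 1 + 1)) := by
        have h1 : sy ε P (a + n + 2) ≫ sy ε P (a + n + 1) ▷ P = sy ε P (a + n + 2) :=
          absorb_right (isSy hε P (a + n + 1)).idem
        change sy ε P (a + n + 2) ≫ (emb a (sy ε P (n + 1))) ▷ P = sy ε P (a + n + 2)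
        conv_lhs => rw [← h1, Category.assoc, ← comp_whiskerRight]
        have ih' : sy ε P (a + n + 1) ≫ emb a (sy ε P (n + 1)) = sy ε P (a + n + 1) := ih
        rw [ih', h1]
      have e2 : sy ε P (a + (n + 1 + 1)) ≫ sw (T P (a + n)) P = ε • sy ε P (a + (n + 1 + 1)) :=
        (isSy hε P (a + n + 2)).right _ (Adj.last (a + n))
      have hn : ((n : ℚ) + 2) ≠ 0 := by positivity
      rw [emb_sy_succ, Linear.comp_smul, Preadditive.comp_add, Linear.comp_smul, e1,
        reassoc_of% e1, reassoc_of% e2, Linear.smul_comp, e1, smul_smul]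
      have e3 : sy ε P (a + (n + 1 + 1)) + (ε * ((n : ℚ) + 1) * ε) • sy ε P (a + (n + 1 + 1)) =
          ((n : ℚ) + 2) • sy ε P (a + (n + 1 + 1)) := by
        have : ε * ((n : ℚ) + 1) * ε = (n : ℚ) + 1 := by linear_combination ((n : ℚ) + 1) * hε
        rw [this]
        module
      rw [e3, smul_smul, inv_mul_cancel₀ hn, one_smul]

/-- The mirror image. -/
lemma emb_sy {ε : ℚ} (hε : ε * ε = 1) (P : 𝒜) (a b : ℕ) :
    emb a (sy ε P b) ≫ sy ε P (a + b) = sy ε P (a + b) := by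
  induction b with
  | zero =>
    have : sy ε P 0 = 𝟙 (T P 0) := rfl
    rw [this, emb_id, Category.id_comp]
  | succ b ih =>
    match b with
    | 0 =>
      have : sy ε P (0 + 1) = 𝟙 (T P (0 + 1)) := rfl
      rw [this, emb_id, Category.id_comp]
    | n + 1 =>
      have e1 : (emb a (sy ε P (n + 1))) ▷ P ≫ sy ε P (a + (n + 1 + 1)) =
          sy ε P (a + (n + 1 + 1)) := by
        have h1 : sy ε P (a + n + 1) ▷ P ≫ sy ε P (a + n + 2) = sy ε P (a + n + 2) :=
          absorb_left (isSy hε P (a + n + 1)).idem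
        change (emb a (sy ε P (n + 1))) ▷ P ≫ sy ε P (a + n + 2) = sy ε P (a + n + 2)
        conv_lhs => rw [← h1, ← Category.assoc, ← comp_whiskerRight]
        have ih' : emb a (sy ε P (n + 1)) ≫ sy ε P (a + n + 1) = sy ε P (a + n + 1) := ih
        rw [ih', h1]
      have e2 : sw (T P (a + n)) P ≫ sy ε P (a + (n + 1 + 1)) = ε • sy ε P (a + (n + 1 + 1)) :=
        (isSy hε P (a + n + 2)).left _ (Adj.last (a + n))
      have hn : ((n : ℚ) + 2) ≠ 0 := by positivity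
      rw [emb_sy_succ, Linear.smul_comp, Preadditive.add_comp, Linear.smul_comp, Category.assoc,
        Category.assoc, e1, e2, Linear.comp_smul, e1, smul_smul]
      have e3 : sy ε P (a + (n + 1 + 1)) + (ε * ((n : ℚ) + 1) * ε) • sy ε P (a + (n + 1 + 1)) =
          ((n : ℚ) + 2) • sy ε P (a + (n + 1 + 1)) := by
        have : ε * ((n : ℚ) + 1) * ε = (n : ℚ) + 1 := by linear_combination ((n : ℚ) + 1) * hε
        rw [this]
        module
      rw [e3, smul_smul, inv_mul_cancel₀ hn, one_smul]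

/-- The (anti)symmetriser absorbs the (anti)symmetriser of the first factors. -/
lemma sy_embL {ε : ℚ} (hε : ε * ε = 1) (P : 𝒜) (a b : ℕ) :
    sy ε P (a + 1 + b) ≫ embL b (sy ε P (a + 1)) = sy ε P (a + 1 + b) := by
  induction b with
  | zero =>
    rw [embL_zero]
    exact (isSy hε P (a + 1)).idem
  | succ b ih =>
    rw [embL_succ]
    obtain ⟨n, hn⟩ : ∃ n, a + 1 + b = n + 1 := ⟨a + b, by omega⟩
    have h1 : sy ε P (a + 1 + b + 1) ≫ sy ε P (a + 1 + b) ▷ P = sy ε P (a + 1 + b + 1) := by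
      have : ∀ m, m = n + 1 → sy ε P (m + 1) ≫ sy ε P m ▷ P = sy ε P (m + 1) := by
        rintro m rfl
        exact absorb_right (isSy hε P (n + 1)).idem
      exact this _ hn
    change sy ε P (a + 1 + b + 1) ≫ (embL b (sy ε P (a + 1))) ▷ P = sy ε P (a + 1 + b + 1)
    conv_lhs => rw [← h1, Category.assoc, ← comp_whiskerRight]
    rw [ih, h1]

/-- The mirror image. -/
lemma embL_sy {ε : ℚ} (hε : ε * ε = 1) (P : 𝒜) (a b : ℕ) :
    embL b (sy ε P (a + 1)) ≫ sy ε P (a + 1 + b) = sy ε P (a + 1 + b) := by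
  induction b with
  | zero =>
    rw [embL_zero]
    exact (isSy hε P (a + 1)).idem
  | succ b ih =>
    rw [embL_succ]
    obtain ⟨n, hn⟩ : ∃ n, a + 1 + b = n + 1 := ⟨a + b, by omega⟩
    have h1 : sy ε P (a + 1 + b) ▷ P ≫ sy ε P (a + 1 + b + 1) = sy ε P (a + 1 + b + 1) := by
      have : ∀ m, m = n + 1 → sy ε P m ▷ P ≫ sy ε P (m + 1) = sy ε P (m + 1) := by
        rintro m rfl
        exact absorb_left (isSy hε P (n + 1)).idem
      exact this _ hn
    change (embL b (sy ε P (a + 1))) ▷ P ≫ sy ε P (a + 1 + b + 1) = sy ε P (a + 1 + b + 1)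
    conv_lhs => rw [← h1, ← Category.assoc, ← comp_whiskerRight]
    rw [ih, h1]

end linear

end

end Pool.Agent.Helper91.SP
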