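import Pool.Agent.Helper91.SP.Ret

/-!
# Exterior and symmetric powers detect Kimura-finiteness
-/

open CategoryTheory MonoidalCategory Limits BraidedCategory

universe u v w

namespace Pool.Agent.Helper91.SP

open Pool.Agent.TH90.AB Pool.Agent.TH90.Kim

set_option linter.unusedSectionVars false

noncomputable section

variable {𝒜 : Type u} [Category.{v} 𝒜] [MonoidalCategory 𝒜] [SymmetricCategory 𝒜]
  [Preadditive 𝒜] [MonoidalPreadditive 𝒜] [Linear ℚ 𝒜] [MonoidalLinear ℚ 𝒜]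

/-- `N`, with the morphisms `i : N ⟶ T M k` and `r : T M k ⟶ N`, is the `k`-th symmetric power
(`ε = 1`) or exterior power (`ε = -1`) of `M`: the largest direct summand of the tensor power
`T M k` on which the transpositions act as `ε`. -/
structure IsPower (ε : ℚ) (M : 𝒜) (k : ℕ) {N : 𝒜} (i : N ⟶ T M k) (r : T M k ⟶ N) : Prop where
  ir : i ≫ r = 𝟙 N
  left : ∀ s, Adj M k s → i ≫ s = ε • i
  right : ∀ s, Adj M k s → s ≫ r = ε • r
  univ : ∀ (Y : 𝒜) (g : T M k ⟶ Y), Signed ε g → r ≫ i ≫ g = g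

lemma comp_sy_aux {ε : ℚ} (hε : ε * ε = 1) {P : 𝒜} (n : ℕ) :
    ∀ {Y Z : 𝒜} (g : Y ⟶ T P n ⊗ Z), (∀ s, Adj P n s → g ≫ s ▷ Z = ε • g) →
      g ≫ sy ε P n ▷ Z = g := by
  induction n with
  | zero => intro Y Z g _; simp [sy]
  | succ n ih =>
    intro Y Z g hg
    match n with
    | 0 => simp [sy]
    | k + 1 =>
      have e1 : g ≫ (sy ε P (k + 1) ▷ P) ▷ Z = g := by
        have h1 := ih (g ≫ (α_ (T P (k + 1)) P Z).hom) (fun s hs => by
          rw [Category.assoc, ← associator_naturality_left, ← Category.assoc,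
            hg _ (Adj.whisker _ s hs), Linear.smul_comp])
        rw [Category.assoc, ← associator_naturality_left, ← Category.assoc] at h1
        exact (cancel_mono (α_ (T P (k + 1)) P Z).hom).mp h1
      have e2 : g ≫ sw (T P k) P ▷ Z = ε • g := hg _ (Adj.last k)
      have hk : ((k : ℚ) + 2) ≠ 0 := by positivity
      rw [sy_succ, MonoidalLinear.smul_whiskerRight, MonoidalPreadditive.add_whiskerRight,
        MonoidalLinear.smul_whiskerRight, comp_whiskerRight, comp_whiskerRight, Linear.comp_smul,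
        Preadditive.comp_add, Linear.comp_smul, e1, reassoc_of% e1, reassoc_of% e2,
        Linear.smul_comp, e1, smul_smul]
      have e3 : g + (ε * ((k : ℚ) + 1) * ε) • g = ((k : ℚ) + 2) • g := by
        have : ε * ((k : ℚ) + 1) * ε = (k : ℚ) + 1 := by linear_combination ((k : ℚ) + 1) * hε
        rw [this]
        module
      rw [e3, smul_smul, inv_mul_cancel₀ hk, one_smul]

lemma comp_sy {ε : ℚ} (hε : ε * ε = 1) {P Y : 𝒜} {n : ℕ} {g : Y ⟶ T P n}
    (hg : ∀ s, Adj P n s → g ≫ s = ε • g) : g ≫ sy ε P n = g := by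
  have h := comp_sy_aux hε n (g ≫ (ρ_ (T P n)).inv) (fun s hs => by
    rw [Category.assoc, ← rightUnitor_inv_naturality, ← Category.assoc, hg s hs,
      Linear.smul_comp])
  rw [Category.assoc, ← rightUnitor_inv_naturality, ← Category.assoc] at h
  exact (cancel_mono (ρ_ (T P n)).inv).mp h

lemma IsPower.sy_eq {ε : ℚ} (hε : ε * ε = 1) {M N : 𝒜} {k : ℕ} {i : N ⟶ T M k}
    {r : T M k ⟶ N} (h : IsPower ε M k i r) : r ≫ i = sy ε M k := by
  have h1 : i ≫ sy ε M k = i := comp_sy hε h.left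
  have h2 : r ≫ i ≫ sy ε M k = sy ε M k := h.univ _ _ (signed_sy hε M k)
  rw [← h2, h1]

/-- The powers exist. -/
lemma exists_power [IsIdempotentComplete 𝒜] {ε : ℚ} (hε : ε * ε = 1) (M : 𝒜) (k : ℕ) :
    ∃ (N : 𝒜) (i : N ⟶ T M k) (r : T M k ⟶ N), i ≫ r = 𝟙 N ∧ r ≫ i = sy ε M k :=
  IsIdempotentComplete.idempotents_split _ _ (isSy hε M k).idem

lemma isPower_of {ε : ℚ} (hε : ε * ε = 1) {M N : 𝒜} {k : ℕ} {i : N ⟶ T M k}
    {r : T M k ⟶ N} (h1 : i ≫ r = 𝟙 N) (h2 : r ≫ i = sy ε M k) : IsPower ε M k i r where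
  ir := h1
  left := by
    intro s hs
    have e1 : i = i ≫ sy ε M k := by rw [← h2, ← Category.assoc, h1, Category.id_comp]
    rw [e1, Category.assoc, (isSy hε M k).right s hs, Linear.comp_smul]
  right := by
    intro s hs
    have e1 : r = sy ε M k ≫ r := by rw [← h2, Category.assoc, h1, Category.comp_id]
    rw [e1, ← Category.assoc, (isSy hε M k).left s hs, Linear.smul_comp]
  univ := by
    intro Y g hg
    rw [← Category.assoc, h2, sy_comp hε hg]

/-- The zero object. -/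
lemma exists_zero [IsIdempotentComplete 𝒜] (M : 𝒜) : ∃ O : 𝒜, Nonempty (Split M M O) ∧
    Nonempty (Split M O M) ∧ PowZero (-1) O 1 ∧ PowZero 1 O 1 := by
  obtain ⟨O, j, s, hjs, hsj⟩ := IsIdempotentComplete.idempotents_split M (0 : M ⟶ M) (by simp)
  have h0 : 𝟙 O = 0 := by
    have : j ≫ (s ≫ j) ≫ s = 𝟙 O := by
      rw [Category.assoc, hjs, Category.comp_id, hjs]
    rw [← this, hsj]
    simp
  have hp : ∀ ε : ℚ, PowZero ε O 1 := by
    intro ε Y g _
    have : 𝟙 (T O 1) = 0 := by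
      change 𝟙 (𝟙_ 𝒜 ⊗ O) = 0
      rw [← MonoidalCategory.whiskerLeft_id, h0, MonoidalPreadditive.whiskerLeft_zero]
    rw [← Category.id_comp g, this, zero_comp]
  refine ⟨O, ⟨{ i := 𝟙 M, r := 𝟙 M, j := j, s := s, ir := by simp, js := hjs, sum := ?_ }⟩,
    ⟨{ i := j, r := s, j := 𝟙 M, s := 𝟙 M, ir := hjs, js := by simp, sum := ?_ }⟩, hp _, hp _⟩
  · rw [hsj]; simp
  · rw [hsj]; simp

lemma kimuraFinite_of_powZero [IsIdempotentComplete 𝒜] {ε : ℚ} (hε : ε = 1 ∨ ε = -1) {M : 𝒜}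
    {n : ℕ} (h : PowZero ε M n) : KimuraFinite M := by
  obtain ⟨O, ⟨S⟩, ⟨S'⟩, h1, h2⟩ := exists_zero M
  rcases hε with rfl | rfl
  · exact ⟨O, M, ⟨S'⟩, ⟨1, h1⟩, n, h⟩
  · exact ⟨M, O, ⟨S⟩, ⟨n, h⟩, 1, h2⟩

variable {K : Type w} [Field K] [CharZero K] (F : Realisation 𝒜 K)
  [hdual : ∀ X : 𝒜, HasRightDual X]
  (hunit : ∀ f : 𝟙_ 𝒜 ⟶ 𝟙_ 𝒜, ∃ q : ℚ, f = q • 𝟙 (𝟙_ 𝒜))

include F hunit

/-- Direct summands of Kimura-finite objects are Kimura-finite. -/
lemma kimuraFinite_retract [IsIdempotentComplete 𝒜] {X Y : 𝒜} (hY : KimuraFinite Y)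
    (k : X ⟶ Y) (l : Y ⟶ X) (hkl : k ≫ l = 𝟙 X) : KimuraFinite X := by
  obtain ⟨N, hN⟩ := F.nilp hunit hY
  obtain ⟨σ, hσ⟩ := F.exists_sigma hY
  obtain ⟨P, Q, ⟨E⟩⟩ := F.exists_eo (M := X)
    (fun f hf => ⟨N, F.pw_retract hunit hN k l hkl hf⟩) one_ne_zero (g := k ≫ σ ≫ l)
    (fun x => by
      rw [F.map_comp, F.map_comp, hσ, ← F.par_map, ← F.map_comp, hkl, F.map_id]
      simp)
  refine ⟨P, Q, ⟨E.S⟩, ?_, ?_⟩
  · exact F.powZero_of_parity hunit hY (Or.inl rfl) (E.S.i ≫ k) (l ≫ E.S.r) (by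
      rw [Category.assoc, ← Category.assoc k, hkl, Category.id_comp, E.S.ir])
      (fun x => by rw [E.even]; simp)
  · have := F.powZero_of_parity hunit hY (Or.inr rfl) (E.S.j ≫ k) (l ≫ E.S.s) (by
      rw [Category.assoc, ← Category.assoc k, hkl, Category.id_comp, E.S.js])
      (fun x => by rw [E.odd]; simp)
    rwa [neg_neg] at this

omit F hunit in
lemma pw_idem {X : 𝒜} {d : X ⟶ X} (h : d ≫ d = d) {n : ℕ} (hn : pw d n = 0) : d = 0 := by
  have h1 : ∀ m, pw d (m + 1) = d := by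
    intro m
    induction m with
    | zero => rw [pw_succ, pw_zero, Category.comp_id]
    | succ m ih => rw [pw_succ, ih, h]
  have h2 : pw d (n + 1) = d ≫ pw d n := pw_succ d n
  rw [hn, comp_zero, h1] at h2
  exact h2

/-- **Main theorem**, for the tensor square of the power. -/
theorem main [IsIdempotentComplete 𝒜] {ε : ℚ} (hε : ε = 1 ∨ ε = -1) {M N : 𝒜} {j : ℕ}
    (iN : N ⟶ T M (j + 1)) (rN : T M (j + 1) ⟶ N) (hN : iN ≫ rN = 𝟙 N)
    (hN' : rN ≫ iN = sy ε M (j + 1)) (hNN : KimuraFinite (N ⊗ N)) : KimuraFinite M := by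
  have hε' : ε * ε = 1 := by rcases hε with rfl | rfl <;> norm_num
  obtain ⟨Z, i, r, hir, hri⟩ := exists_power hε' M (j + 1 + j)
  -- the two morphisms between `T M (2k)` and `N ⊗ N`
  let κ : N ⊗ N ⟶ T M (j + 1 + (j + 1)) := (iN ⊗ₘ iN) ≫ (cat M (j + 1) (j + 1)).hom
  let lam : T M (j + 1 + (j + 1)) ⟶ N ⊗ N := (cat M (j + 1) (j + 1)).inv ≫ (rN ⊗ₘ rN)
  have hlk : lam ≫ κ = ee ε M j := by
    simp only [lam, κ, Category.assoc]
    rw [tensorHom_comp_tensorHom_assoc, hN', ee_eq]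
  have haa : (r ≫ i) ▷ M = aa ε M j := by rw [hri]; rfl
  have hia : i ▷ M ≫ aa ε M j = i ▷ M := by
    rw [← haa, ← comp_whiskerRight, ← Category.assoc, hir, Category.id_comp]
  by_cases hZ : ∃ x : F.V Z, x ≠ 0
  · -- `Z ⊗ M` is a direct summand of `N ⊗ N`
    have hM : ∃ x : F.V M, x ≠ 0 := by
      by_contra h
      push Not at h
      obtain ⟨x, hx⟩ := hZ
      apply hx
      obtain ⟨n, hn⟩ : ∃ n, j + 1 + j = n + 1 := ⟨j + j, by omega⟩
      have h0 : ∀ m, m = n + 1 → ∀ z : F.V (T M m), z = 0 := by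
        rintro m rfl z
        obtain ⟨q, a, b, rfl⟩ := F.exists_sum (X := T M n) (Y := M) z
        refine Finset.sum_eq_zero fun t _ => ?_
        rw [h (b t), _root_.map_zero]
      have h1 : F.map (i ≫ r) x = x := by rw [hir, F.map_id]
      rw [F.map_comp, h0 _ hn (F.map i x), _root_.map_zero] at h1
      exact h1.symm
    have hX : KimuraFinite (Z ⊗ M) := by
      refine kimuraFinite_retract F hunit hNN (i ▷ M ≫ lam)
        (κ ≫ aa ε M j ≫ ((2 * (j : ℚ) + 1) • aa ε M j - (2 * (j : ℚ)) • ss ε M j) ≫ r ▷ M) ?_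
      have e1 := main_id hε' M j
      have e2 : (i ▷ M ≫ lam) ≫ κ ≫ aa ε M j ≫
          ((2 * (j : ℚ) + 1) • aa ε M j - (2 * (j : ℚ)) • ss ε M j) ≫ r ▷ M =
          i ▷ M ≫ (ee ε M j ≫ aa ε M j ≫
            ((2 * (j : ℚ) + 1) • aa ε M j - (2 * (j : ℚ)) • ss ε M j)) ≫ r ▷ M := by
        simp only [Category.assoc]
        rw [reassoc_of% hlk]
      rw [e2]
      conv_lhs => rw [← hia]
      simp only [Category.assoc]
      have e3 := congrArg (fun f => i ▷ M ≫ f ≫ r ▷ M) e1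
      simp only [Category.assoc] at e3
      rw [e3, reassoc_of% hia, ← comp_whiskerRight, hir, id_whiskerRight]
    exact F.kimuraFinite_right hunit hZ hM hX
  · -- the `2k`-th power of `M` is zero
    push Not at hZ
    have h1 : F.Inv (sy ε M (j + 1 + j)) := by
      intro x
      rw [← hri, F.map_comp, hZ (F.map r x), _root_.map_zero]
    have h2 : F.Inv (ss ε M j) := by
      rw [← ss_aa hε' M j]
      exact F.inv_comp_right _ (Realisation.Inv.whiskerRight F h1 M)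
    let d : N ⊗ N ⟶ N ⊗ N := κ ≫ ss ε M j ≫ lam
    have hd : F.Inv d := F.inv_comp_right _ (F.inv_comp_left _ h2)
    have hdd : d ≫ d = d := by
      simp only [d, Category.assoc]
      rw [reassoc_of% hlk, reassoc_of% (ss_ee hε' M j), reassoc_of% (ss_ss hε' M j)]
    obtain ⟨n, hn⟩ := F.nilp hunit hNN
    have hpw : pw d n = 0 := by
      have := hn (List.replicate n (show End (N ⊗ N) from d)) (by
        intro x hx
        rw [List.eq_of_mem_replicate hx]
        exact hd) List.length_replicate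
      rw [List.prod_replicate] at this
      exact this
    have hd0 := pw_idem hdd hpw
    have h3 : ss ε M j = 0 := by
      have : lam ≫ d ≫ κ = ss ε M j := by
        simp only [d, Category.assoc]
        rw [reassoc_of% hlk, hlk, reassoc_of% (ee_ss hε' M j), ss_ee hε' M j]
      rw [← this, hd0, zero_comp, comp_zero]
    exact kimuraFinite_of_powZero hε ((powZero_iff hε' M (j + 1 + (j + 1))).mpr h3)

end

end Pool.Agent.Helper91.SP
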