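import Pool.Agent.Helper91.SP.Cat

/-!
# `Λ^(2k-1) M ⊗ M` is a direct summand of `Λ^k M ⊗ Λ^k M`
-/

open CategoryTheory MonoidalCategory Limits BraidedCategory

universe u v w

namespace Pool.Agent.Helper91.SP

open Pool.Agent.TH90.AB Pool.Agent.TH90.Kim

set_option linter.unusedSectionVars false

noncomputable section

variable {𝒜 : Type u} [Category.{v} 𝒜] [MonoidalCategory 𝒜] [SymmetricCategory 𝒜]
  [Preadditive 𝒜] [MonoidalPreadditive 𝒜] [Linear ℚ 𝒜] [MonoidalLinear ℚ 𝒜]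

/-- The (anti)symmetriser of all but the last factor. -/
def aa (ε : ℚ) (M : 𝒜) (j : ℕ) : T M (j + 1 + (j + 1)) ⟶ T M (j + 1 + (j + 1)) :=
  sy ε M (j + 1 + j) ▷ M

/-- The (anti)symmetriser of all factors. -/
def ss (ε : ℚ) (M : 𝒜) (j : ℕ) : T M (j + 1 + (j + 1)) ⟶ T M (j + 1 + (j + 1)) :=
  sy ε M (j + 1 + (j + 1))

/-- The product of the (anti)symmetrisers of the first and of the second half. -/
def ee (ε : ℚ) (M : 𝒜) (j : ℕ) : T M (j + 1 + (j + 1)) ⟶ T M (j + 1 + (j + 1)) :=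
  embL (j + 1) (sy ε M (j + 1)) ≫ emb (j + 1) (sy ε M (j + 1))

lemma ee_eq (ε : ℚ) (M : 𝒜) (j : ℕ) : ee ε M j =
    (cat M (j + 1) (j + 1)).inv ≫ (sy ε M (j + 1) ⊗ₘ sy ε M (j + 1)) ≫
      (cat M (j + 1) (j + 1)).hom := by
  rw [ee, embL, emb, MonoidalCategory.tensorHom_def]
  simp

variable {ε : ℚ} (hε : ε * ε = 1) (M : 𝒜) (j : ℕ)

include hε

lemma aa_aa : aa ε M j ≫ aa ε M j = aa ε M j := by
  rw [aa, ← comp_whiskerRight, (isSy hε M _).idem]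

lemma ss_ss : ss ε M j ≫ ss ε M j = ss ε M j := (isSy hε M _).idem

lemma aa_ss : aa ε M j ≫ ss ε M j = ss ε M j := by
  obtain ⟨n, hn⟩ : ∃ n, j + 1 + j = n + 1 := ⟨j + j, by omega⟩
  have : ∀ m, m = n + 1 → sy ε M m ▷ M ≫ sy ε M (m + 1) = sy ε M (m + 1) := by
    rintro m rfl
    exact absorb_left (isSy hε M (n + 1)).idem
  exact this _ hn

lemma ss_aa : ss ε M j ≫ aa ε M j = ss ε M j := by
  obtain ⟨n, hn⟩ : ∃ n, j + 1 + j = n + 1 := ⟨j + j, by omega⟩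
  have : ∀ m, m = n + 1 → sy ε M (m + 1) ≫ sy ε M m ▷ M = sy ε M (m + 1) := by
    rintro m rfl
    exact absorb_right (isSy hε M (n + 1)).idem
  exact this _ hn

lemma aa_embL : aa ε M j ≫ embL (j + 1) (sy ε M (j + 1)) = aa ε M j := by
  rw [aa, embL_succ]
  change sy ε M (j + 1 + j) ▷ M ≫ (embL j (sy ε M (j + 1))) ▷ M = _
  rw [← comp_whiskerRight, sy_embL hε]

lemma ss_ee : ss ε M j ≫ ee ε M j = ss ε M j := by
  rw [ee, ← Category.assoc]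
  change (sy ε M (j + 1 + (j + 1)) ≫ embL (j + 1) (sy ε M (j + 1))) ≫ _ = _
  rw [sy_embL hε M j (j + 1), sy_emb hε M (j + 1) (j + 1)]
  rfl

lemma ee_ss : ee ε M j ≫ ss ε M j = ss ε M j := by
  rw [ee, Category.assoc]
  change embL (j + 1) (sy ε M (j + 1)) ≫ emb (j + 1) (sy ε M (j + 1)) ≫
    sy ε M (j + 1 + (j + 1)) = _
  rw [emb_sy hε M (j + 1) (j + 1), embL_sy hε M j (j + 1)]
  rfl

lemma aa_emb_aa : aa ε M j ≫ emb (j + 1) (sy ε M (j + 1)) ≫ aa ε M j =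
    (2 * (j : ℚ) + 1)⁻¹ • (aa ε M j + (2 * (j : ℚ)) • ss ε M j) := by
  match j with
  | 0 =>
    have : sy ε M (0 + 1) = 𝟙 (T M (0 + 1)) := rfl
    rw [this, emb_id, Category.id_comp, aa_aa hε]
    simp
  | i + 1 =>
    have e1 : aa ε M (i + 1) ≫ (emb (i + 2) (sy ε M (i + 1))) ▷ M = aa ε M (i + 1) := by
      rw [aa]
      change sy ε M (i + 2 + (i + 1)) ▷ M ≫ _ = _
      rw [← comp_whiskerRight, sy_emb hε M (i + 2) (i + 1)]
    have e2 : (emb (i + 2) (sy ε M (i + 1))) ▷ M ≫ aa ε M (i + 1) = aa ε M (i + 1) := by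
      rw [aa]
      change _ ≫ sy ε M (i + 2 + (i + 1)) ▷ M = _
      rw [← comp_whiskerRight, emb_sy hε M (i + 2) (i + 1)]
    have e3 : emb (i + 1 + 1) (sy ε M (i + 1 + 1)) = ((i : ℚ) + 2)⁻¹ •
        ((emb (i + 2) (sy ε M (i + 1))) ▷ M + (ε * (i + 1)) •
          ((emb (i + 2) (sy ε M (i + 1))) ▷ M ≫ sw (T M (i + 2 + i)) M ≫
            (emb (i + 2) (sy ε M (i + 1))) ▷ M)) := emb_sy_succ ε M (i + 2) i
    set t : T M (i + 1 + 1 + (i + 1 + 1)) ⟶ T M (i + 1 + 1 + (i + 1 + 1)) :=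
      aa ε M (i + 1) ≫ sw (T M (i + 2 + i)) M ≫ aa ε M (i + 1) with ht
    have e4 : ss ε M (i + 1) = (((i + 2 + i : ℕ) : ℚ) + 2)⁻¹ •
        (aa ε M (i + 1) + (ε * (((i + 2 + i : ℕ) : ℚ) + 1)) • t) := sy_succ ε M (i + 2 + i)
    have e5 : aa ε M (i + 1) ≫ emb (i + 1 + 1) (sy ε M (i + 1 + 1)) ≫ aa ε M (i + 1) =
        ((i : ℚ) + 2)⁻¹ • (aa ε M (i + 1) + (ε * (i + 1)) • t) := by
      rw [e3, Linear.smul_comp, Linear.comp_smul, Preadditive.add_comp, Preadditive.comp_add,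
        Linear.smul_comp, Linear.comp_smul, e2, aa_aa hε, Category.assoc, Category.assoc, e2,
        reassoc_of% e1]
    rw [e5, e4]
    have hi : ((i : ℚ) + 2) ≠ 0 := by positivity
    have hi2 : (((i + 2 + i : ℕ) : ℚ) + 2) ≠ 0 := by positivity
    have hi3 : (2 * ((i + 1 : ℕ) : ℚ) + 1) ≠ 0 := by positivity
    push_cast at hi2 hi3 ⊢
    match_scalars
    · field_simp
      ring
    · field_simp
      ring

/-- The inverse of `aa ee aa`. -/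
lemma main_id : aa ε M j ≫ ee ε M j ≫ aa ε M j ≫
    ((2 * (j : ℚ) + 1) • aa ε M j - (2 * (j : ℚ)) • ss ε M j) = aa ε M j := by
  have h1 : aa ε M j ≫ ee ε M j ≫ aa ε M j =
      (2 * (j : ℚ) + 1)⁻¹ • (aa ε M j + (2 * (j : ℚ)) • ss ε M j) := by
    rw [ee, Category.assoc, ← Category.assoc (aa ε M j), aa_embL hε, aa_emb_aa hε]
  have h2 : aa ε M j ≫ ee ε M j ≫ aa ε M j ≫
      ((2 * (j : ℚ) + 1) • aa ε M j - (2 * (j : ℚ)) • ss ε M j) =
      (aa ε M j ≫ ee ε M j ≫ aa ε M j) ≫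
        ((2 * (j : ℚ) + 1) • aa ε M j - (2 * (j : ℚ)) • ss ε M j) := by
    simp only [Category.assoc]
  have hj : (2 * (j : ℚ) + 1) ≠ 0 := by positivity
  rw [h2, h1]
  simp only [Linear.smul_comp, Preadditive.add_comp, Preadditive.comp_sub, Linear.comp_smul,
    aa_aa hε, aa_ss hε, ss_aa hε, ss_ss hε]
  match_scalars
  · field_simp
  · field_simp
    ring

end

end Pool.Agent.Helper91.SP
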